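import Mathlib

namespace Pool.Agent.Results.MP_460c01_lc.Bound

/-- trees over the symbols `F` of ranks `ar`, with extra leaves in `L` -/
inductive Tm (F : Type) (ar : F → ℕ) (L : Type) : Type
  | leaf (l : L)
  | node (f : F) (c : Fin (ar f) → Tm F ar L)

variable {S F L L' L'' Q : Type} {as : S → ℕ} {ar : F → ℕ}

/-- substitution of trees for the extra leaves -/
def subst (g : L → Tm F ar L') : Tm F ar L → Tm F ar L'
  | .leaf l => g l
  | .node f c => .node f fun i => subst g (c i)

/-- the extra leaf `l` occurs -/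
def Occ (l : L) : Tm F ar L → Prop
  | .leaf l' => l' = l
  | .node _ c => ∃ i, Occ l (c i)

/-- number of nodes on a longest root-to-leaf path -/
def height : Tm F ar L → ℕ
  | .leaf _ => 1
  | .node _ c => Finset.univ.sup (fun i => height (c i)) + 1

/-- with rules `R`, the call `q(s)` rewrites to the output tree `t` -/
def Run (R : Q → (σ : S) → Option (Tm F ar (Q × Fin (as σ)))) :
    Tm S as Empty → Q → Tm F ar Empty → Prop
  | .leaf l, _, _ => l.elim
  | .node σ c, q, t => ∃ ζ, R q σ = some ζ ∧ ∃ g : Q × Fin (as σ) → Tm F ar Empty,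
      (∀ p, Occ p ζ → Run R (c p.2) p.1 (g p)) ∧ t = subst g ζ

lemma subst_congr {g g' : L → Tm F ar L'} {t : Tm F ar L} (h : ∀ l, Occ l t → g l = g' l) :
    subst g t = subst g' t := by
  induction t with
  | leaf l => exact h l rfl
  | node f c ih => exact congrArg _ (funext fun i => ih i fun l e => h l ⟨i, e⟩)

lemma subst_subst (g : L → Tm F ar L') (g' : L' → Tm F ar L'') (t : Tm F ar L) :
    subst g' (subst g t) = subst (fun l => subst g' (g l)) t := by
  induction t with
  | leaf l => rfl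
  | node f c ih => exact congrArg _ (funext ih)

lemma subst_leaf (t : Tm F ar L) : subst .leaf t = t := by
  induction t with
  | leaf l => rfl
  | node f c ih => exact congrArg _ (funext ih)

lemma subst_emb (g : L → Tm F ar Empty) (t : Tm F ar Empty) :
    subst g (subst Empty.elim t) = t := by
  rw [subst_subst, subst_congr (g' := .leaf) fun l => l.elim, subst_leaf]

lemma occ_subst {g : L → Tm F ar L'} {t : Tm F ar L} {l} (h : Occ l (subst g t)) :
    ∃ l', Occ l' t ∧ Occ l (g l') := by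
  induction t with
  | leaf l => exact ⟨l, rfl, h⟩
  | node f c ih =>
    obtain ⟨i, h⟩ := h
    obtain ⟨l', h1, h2⟩ := ih i h
    exact ⟨l', ⟨i, h1⟩, h2⟩

lemma height_le {g : L → Tm F ar L'} {t : Tm F ar L} {l} (h : Occ l t) :
    height (g l) ≤ height (subst g t) := by
  induction t with
  | leaf l => cases h; rfl
  | node f c ih =>
    obtain ⟨i, h⟩ := h
    exact (ih i h).trans ((Finset.le_sup (f := fun i => height (subst g (c i)))
      (Finset.mem_univ i)).trans (Nat.le_succ _))

lemma solve1 {A : Set (Q → Tm F ar Empty)} (hA : A.Nonempty) {x : Q} {t : Tm F ar Q}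
    (ne : t ≠ .leaf x) (h : ∀ v ∈ A, v x = subst v t) : ¬ Occ x t := by
  intro e
  obtain ⟨v, hv⟩ := hA
  cases t with
  | leaf l => exact ne (congrArg _ e)
  | node f c =>
    obtain ⟨i, e⟩ := e
    have h1 := height_le (g := v) e
    have h2 := Finset.le_sup (f := fun i => height (subst v (c i))) (Finset.mem_univ i)
    rw [h v hv, subst, height] at h1
    omega

lemma solve {A : Set (Q → Tm F ar Empty)} (hA : A.Nonempty) (s : Tm F ar Q) :
    ∀ t, s ≠ t → (∀ v ∈ A, subst v s = subst v t) → ∃ x r, ¬ Occ x r ∧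
      (∀ y, y = x ∨ Occ y r → Occ y s ∨ Occ y t) ∧ ∀ v ∈ A, v x = subst v r := by
  induction s with
  | leaf x =>
    exact fun t ne h => ⟨x, t, solve1 hA ne.symm h, fun y e => e.imp_left Eq.symm, h⟩
  | node f c ih =>
    intro t ne h
    cases t with
    | leaf x =>
      exact ⟨x, _, solve1 hA ne fun v hv => (h v hv).symm, fun y e => (e.imp_left Eq.symm).symm,
        fun v hv => (h v hv).symm⟩
    | node f' c' =>
      obtain ⟨v, hv⟩ := hA
      obtain rfl : f = f' := (Tm.node.inj (h v hv)).1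
      obtain ⟨i, hi⟩ : ∃ i, c i ≠ c' i := by
        by_contra k
        push Not at k
        exact ne (congrArg _ (funext k))
      obtain ⟨x, r, h1, h2, h3⟩ := ih i _ hi fun v hv =>
        congrFun (eq_of_heq (Tm.node.inj (h v hv)).2) i
      exact ⟨x, r, h1, fun y e => (h2 y e).imp (⟨i, ·⟩) (⟨i, ·⟩), h3⟩

/-- `v` satisfies the equations of `A`, and `A` is not empty -/
def Cl (A : Set (Q → Tm F ar Empty)) (W : Finset Q) (v : Q → Tm F ar Empty) : Prop :=
  A.Nonempty ∧ ∀ s t : Tm F ar Q, (∀ y, Occ y s ∨ Occ y t → y ∈ W) →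
    (∀ u ∈ A, subst u s = subst u t) → subst v s = subst v t

lemma jumps {A : ℕ → Set (Q → Tm F ar Empty)} (hA : Monotone A) (n : ℕ) :
    ∀ (W : Finset Q) (J : Finset ℕ), W.card = n →
      (∀ j ∈ J, ∃ v ∈ A (j + 1), ¬ Cl (A j) W v) → J.card ≤ n + 1 := by
  classical
  induction n using Nat.strong_induction_on with | _ n ih =>
  intro W J hW hJ
  rcases J.eq_empty_or_nonempty with rfl | ne
  · simp
  have hm := J.max'_mem ne
  have lt (j) (hj : j ∈ J.erase (J.max' ne)) : A (j + 1) ⊆ A (J.max' ne) :=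
    hA ((J.le_max' j (Finset.mem_of_mem_erase hj)).lt_of_ne (Finset.ne_of_mem_erase hj))
  rw [← Finset.card_erase_add_one hm, add_le_add_iff_right]
  rcases (J.erase (J.max' ne)).eq_empty_or_nonempty with e | ⟨j, hj⟩
  · simp [e]
  have hne : (A (J.max' ne)).Nonempty :=
    let ⟨v, hv, _⟩ := hJ j (Finset.mem_of_mem_erase hj)
    ⟨v, lt j hj hv⟩
  obtain ⟨v, -, hv⟩ := hJ _ hm
  simp only [Cl, hne, true_and, not_forall] at hv
  obtain ⟨s, t, h1, h2, h3⟩ := hv
  obtain ⟨x, r, k1, k2, k3⟩ := solve hne s t (fun e => h3 (e ▸ rfl)) h2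
  have hx := h1 x (k2 x (.inl rfl))
  have hc := Finset.card_erase_add_one hx
  refine (ih _ (by omega) (W.erase x) _ rfl fun j hj => ?_).trans (by omega)
  obtain ⟨v, hv, h⟩ := hJ j (Finset.mem_of_mem_erase hj)
  refine ⟨v, hv, fun k => h ⟨k.1, fun s t l1 l2 => ?_⟩⟩
  have key (u) (hu : u ∈ A (j + 1)) (s : Tm F ar Q) :
      subst u (subst (Function.update .leaf x r) s) = subst u s := by
    rw [subst_subst]
    refine subst_congr fun y _ => ?_
    rcases eq_or_ne y x with rfl | e
    · simp [k3 u (lt j hj hu)]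
    · simp [e, subst]
  have occ {s : Tm F ar Q} {y} (h : Occ y (subst (Function.update .leaf x r) s))
      (hs : ∀ y, Occ y s → y ∈ W) : y ∈ W.erase x := by
    obtain ⟨z, o1, o2⟩ := occ_subst h
    rcases eq_or_ne z x with rfl | e
    · rw [Function.update_self] at o2
      exact Finset.mem_erase.2 ⟨fun e => k1 (e ▸ o2), h1 y (k2 y (.inr o2))⟩
    · rw [Function.update_of_ne e] at o2
      cases o2
      exact Finset.mem_erase.2 ⟨e, hs _ o1⟩
  rw [← key v hv, ← key v hv t]
  exact k.2 _ _ (fun y e => e.elim (occ · fun y e => l1 y (.inl e)) (occ · fun y e => l1 y (.inr e)))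
    fun u hu => by rw [key u (hA (Nat.le_succ _) hu), key u (hA (Nat.le_succ _) hu), l2 u hu]

theorem closure [Fintype Q] (dom : Tm S as Empty → Set Q) (val : Tm S as Empty → Q → Tm F ar Empty)
    (H : ∀ σ c, ∃ Z : Q → Tm F ar (Q × Fin (as σ)), ∀ c', (∀ i, dom (c' i) = dom (c i)) →
      dom (.node σ c') = dom (.node σ c) ∧
        val (.node σ c') = fun q => subst (fun p => val (c' p.2) p.1) (Z q)) :
    ∃ h ≤ 2 ^ Fintype.card Q * (Fintype.card Q + 1), ∀ s,
      Cl (val '' {s' | height s' ≤ h ∧ dom s' = dom s}) Finset.univ (val s) := by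
  classical
  let A : Set Q → ℕ → Set (Q → Tm F ar Empty) := fun D h => val '' {s' | height s' ≤ h ∧ dom s' = D}
  have hA (D) : Monotone (A D) := fun a b e => Set.image_mono fun s hs => ⟨hs.1.trans e, hs.2⟩
  obtain ⟨h, hh, st⟩ : ∃ h ≤ 2 ^ Fintype.card Q * (Fintype.card Q + 1), ∀ D, ∀ v ∈ A D (h + 1),
      Cl (A D h) Finset.univ v := by
    by_contra k
    push Not at k
    let J := fun D => (Finset.range (2 ^ Fintype.card Q * (Fintype.card Q + 1) + 1)).filter
      fun j => ∃ v ∈ A D (j + 1), ¬ Cl (A D j) Finset.univ v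
    have := (Finset.card_le_card (s := Finset.range (2 ^ Fintype.card Q * (Fintype.card Q + 1) + 1))
      (t := Finset.univ.biUnion J) fun j hj => by
        obtain ⟨D, e⟩ := k j (by simpa [Nat.lt_succ_iff] using hj)
        exact Finset.mem_biUnion.2 ⟨D, Finset.mem_univ _, Finset.mem_filter.2 ⟨hj, e⟩⟩).trans
      (Finset.card_biUnion_le_card_mul _ _ _ fun D _ =>
        jumps (hA D) _ Finset.univ _ rfl fun j hj => (Finset.mem_filter.1 hj).2)
    simp at this
  refine ⟨h, hh, fun s => ?_⟩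
  induction s with
  | leaf l => exact l.elim
  | node σ c ih =>
    obtain ⟨Z, hZ⟩ := H σ c
    have base (w : Fin (as σ) → Q → Tm F ar Empty) (hw : ∀ i, w i ∈ A (dom (c i)) h) :
        Cl (A (dom (.node σ c)) h) Finset.univ fun q => subst (fun p => w p.2 p.1) (Z q) := by
      choose c' h1 h2 using hw
      obtain ⟨e1, e2⟩ := hZ c' fun i => (h1 i).2
      exact st _ _ ⟨.node σ c', ⟨Nat.succ_le_succ (Finset.sup_le fun i _ => (h1 i).1), e1⟩,
        by simp only [e2, h2]⟩
    choose w0 hw0 using fun i => (ih i).1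
    refine ⟨(base w0 hw0).1, fun s t _ e => ?_⟩
    have key (B : Finset (Fin (as σ))) : ∀ w : Fin (as σ) → Q → Tm F ar Empty,
        (∀ i ∈ B, w i = val (c i)) → (∀ i ∉ B, w i ∈ A (dom (c i)) h) →
        subst (fun q => subst (fun p => w p.2 p.1) (Z q)) s =
          subst (fun q => subst (fun p => w p.2 p.1) (Z q)) t := by
      induction B using Finset.induction_on with
      | empty => exact fun w _ hw => (base w fun i => hw i (by simp)).2 s t (by simp) e
      | insert a B ha ihB =>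
        intro w h1 h2
        let g : Q → Tm F ar Q := fun q => subst
          (fun p => if p.2 = a then .leaf p.1 else subst Empty.elim (w p.2 p.1)) (Z q)
        have hg (u) (s : Tm F ar Q) : subst u (subst g s) =
            subst (fun q => subst (fun p => Function.update w a u p.2 p.1) (Z q)) s := by
          simp only [g, subst_subst]
          refine subst_congr fun q _ => subst_congr fun p _ => ?_
          split_ifs with k
          · simp [k, subst]
          · simp [k, subst_emb]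
        have := (ih a).2 (subst g s) (subst g t) (by simp) fun u hu => by
          rw [hg, hg]
          refine ihB _ (fun i hi => ?_) fun i hi => ?_
          · rw [Function.update_of_ne (ne_of_mem_of_not_mem hi ha), h1 i (by simp [hi])]
          · rcases eq_or_ne i a with rfl | k
            · rwa [Function.update_self]
            · rw [Function.update_of_ne k]; exact h2 i (by simp [hi, k])
        rwa [hg, hg, ← h1 a (by simp), Function.update_eq_self] at this
    rw [(hZ c fun _ => rfl).2]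
    exact key Finset.univ _ (fun _ _ => rfl) (by simp)

variable {R : Q → (σ : S) → Option (Tm F ar (Q × Fin (as σ)))}

lemma Run.unique {s} : ∀ {q t t'}, Run R s q t → Run R s q t' → t = t' := by
  induction s with
  | leaf l => exact l.elim
  | node σ c ih =>
    rintro q _ _ ⟨ζ, e, g, h, rfl⟩ ⟨ζ', e', g', h', rfl⟩
    cases e.symm.trans e'
    exact subst_congr fun p o => ih _ (h p o) (h' p o)

open Classical in
noncomputable def val (R : Q → (σ : S) → Option (Tm F ar (Q × Fin (as σ)))) (d : Tm F ar Empty)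
    (s : Tm S as Empty) (q : Q) : Tm F ar Empty :=
  if h : ∃ t, Run R s q t then h.choose else d

lemma run_iff {d s q t} : Run R s q t ↔ (∃ t, Run R s q t) ∧ val R d s q = t :=
  ⟨fun h => ⟨⟨t, h⟩, by rw [val, dif_pos ⟨t, h⟩]; exact Run.unique (Exists.choose_spec (⟨t, h⟩ : ∃ t, Run R s q t)) h⟩,
    fun h => by rw [← h.2, val, dif_pos h.1]; exact h.1.choose_spec⟩

lemma comp (R : Q → (σ : S) → Option (Tm F ar (Q × Fin (as σ)))) (d σ c q) :
    ∃ Z : Tm F ar (Q × Fin (as σ)), ∀ c',
      (∀ i q, (∃ t, Run R (c' i) q t) ↔ ∃ t, Run R (c i) q t) →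
      ((∃ t, Run R (.node σ c') q t) ↔ ∃ t, Run R (.node σ c) q t) ∧
        val R d (.node σ c') q = subst (fun p => val R d (c' p.2) p.1) Z := by
  have key {c c' : Fin (as σ) → Tm S as Empty} (h : ∀ i q, (∃ t, Run R (c i) q t) → ∃ t, Run R (c' i) q t) {ζ}
      (e : R q σ = some ζ) {g : Q × Fin (as σ) → Tm F ar Empty} (hg : ∀ p, Occ p ζ → Run R (c p.2) p.1 (g p)) :
      Run R (.node σ c') q (subst (fun p => val R d (c' p.2) p.1) ζ) :=
    ⟨ζ, e, _, fun p o => run_iff.2 ⟨h _ _ ⟨_, hg p o⟩, rfl⟩, rfl⟩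
  by_cases h : ∃ t, Run R (.node σ c) q t
  · obtain ⟨t, ζ, e, g, hg, ht⟩ := h
    refine ⟨ζ, fun c' h => ?_⟩
    have := key (fun i q => (h i q).2) e hg
    exact ⟨iff_of_true ⟨_, this⟩ ⟨t, ζ, e, g, hg, ht⟩, (run_iff.1 this).2⟩
  · refine ⟨subst Empty.elim d, fun c' h' => ?_⟩
    have : ¬ ∃ t, Run R (.node σ c') q t := fun ⟨t, ζ, e, g, hg, _⟩ =>
      h ⟨_, key (fun i q => (h' i q).1) e hg⟩
    exact ⟨iff_of_false this h, by rw [subst_emb, val, dif_neg this]⟩

theorem result : ∃ H : ℕ → ℕ → ℕ, ∀ (S F : Type) (as : S → ℕ) (ar : F → ℕ) (n₁ n₂ : ℕ)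
    (R₁ : Fin n₁ → (σ : S) → Option (Tm F ar (Fin n₁ × Fin (as σ))))
    (R₂ : Fin n₂ → (σ : S) → Option (Tm F ar (Fin n₂ × Fin (as σ)))) (q₁ : Fin n₁) (q₂ : Fin n₂),
    (∀ s, height s ≤ H n₁ n₂ → ∀ t, Run R₁ s q₁ t ↔ Run R₂ s q₂ t) →
    ∀ s t, Run R₁ s q₁ t ↔ Run R₂ s q₂ t := by
  refine ⟨fun a b => 2 ^ (a + b) * (a + b + 1), fun S F as ar n₁ n₂ R₁ R₂ q₁ q₂ h s d => ?_⟩
  obtain ⟨k, hk, H⟩ := closure (Q := Fin n₁ ⊕ Fin n₂)
    (fun s => {q | q.elim (fun q => ∃ t, Run R₁ s q t) fun q => ∃ t, Run R₂ s q t})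
    (fun s => Sum.elim (val R₁ d s) (val R₂ d s)) fun σ c => by
      choose Z₁ h1 using comp R₁ d σ c
      choose Z₂ h2 using comp R₂ d σ c
      refine ⟨Sum.elim (fun q => subst (fun p => .leaf (.inl p.1, p.2)) (Z₁ q))
        fun q => subst (fun p => .leaf (.inr p.1, p.2)) (Z₂ q), fun c' e => ?_⟩
      have e1 := fun q => h1 q c' fun i q => Set.ext_iff.1 (e i) (.inl q)
      have e2 := fun q => h2 q c' fun i q => Set.ext_iff.1 (e i) (.inr q)
      refine ⟨Set.ext (Sum.rec (fun q => (e1 q).1) fun q => (e2 q).1), funext (Sum.rec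
        (fun q => (e1 q).2.trans ?_) fun q => (e2 q).2.trans ?_)⟩ <;>
      simp only [Sum.elim_inl, Sum.elim_inr, subst_subst, subst]
  simp only [Fintype.card_sum, Fintype.card_fin] at hk
  obtain ⟨⟨_, s', hs', -⟩, H⟩ := H s
  have a (s') (hs' : height s' ≤ k) := h s' (hs'.trans hk)
  have e1 : (∃ t, Run R₁ s q₁ t) ↔ ∃ t, Run R₂ s q₂ t :=
    (Set.ext_iff.1 hs'.2 (.inl q₁)).symm.trans ((exists_congr (a s' hs'.1)).trans
      (Set.ext_iff.1 hs'.2 (.inr q₂)))
  have e2 : val R₁ d s q₁ = val R₂ d s q₂ := H (.leaf (.inl q₁)) (.leaf (.inr q₂)) (by simp) (by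
    rintro _ ⟨s', hs', rfl⟩
    have : Run R₁ s' q₁ = Run R₂ s' q₂ := funext fun t => propext (a s' hs'.1 t)
    simp only [subst, Sum.elim_inl, Sum.elim_inr]
    rw [val, val, this])
  rw [run_iff (d := d), run_iff (d := d) (R := R₂), e1, e2]

end Pool.Agent.Results.MP_460c01_lc.Bound
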